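import Pool.Agent.RDL.CorrX
import Pool.Agent.RDL.LogPow
import Pool.Agent.RDL.NormK
import Pool.Agent.RDL.Neg

/-!
# Return probabilities on groups with property RD: a class of corrections, among them `(log log n) ^ (-1/2)`
-/

set_option autoImplicit false

namespace Pool.Agent.Results.MP_5501f7_pr.Corrections

open Pool.Agent.RDL Filter Topology

/-- For every sequence `m` of the least class which contains the constant `1` and with `m₁`, `m₂` the sequence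
`1 + ∑_{k ≤ n} 1 / (k √(m₁(k) m₂(k)))` there are a finitely generated group with property RD and a finitely supported
symmetric probability measure whose even return probabilities are asymptotic to
`c ρ ^ (2n) n ^ (-3/2) m(n) ^ (-1/2)`. Among these corrections are `(log n) ^ (-b)` for every dyadic `b ∈ [0, 1/2]` and
`(log log n) ^ (-1/2)`; for the latter no powers of `n` and of `log n` give the asymptotics. -/
theorem result :
    (∀ m : ℕ → ℝ, Corr m → ∃ (G : Type) (_ : Group G), RDp G ∧ ∃ ν : G →₀ ℝ, SP ν ∧ ∃ ρ > (0 : ℝ), IsNrm ν ρ ∧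
      ∃ c > (0 : ℝ), Asymptotics.IsEquivalent atTop (fun n : ℕ => rt ν (2 * n))
        (fun n : ℕ => c * (n : ℝ) ^ (-(3 / 2) : ℝ) * (m n) ^ (-(1 / 2) : ℝ) * ρ ^ (2 * n))) ∧
    (∀ j k : ℕ, j ≤ 2 ^ k → ∃ (G : Type) (_ : Group G), RDp G ∧ ∃ ν : G →₀ ℝ, SP ν ∧ ∃ ρ > (0 : ℝ), IsNrm ν ρ ∧
      ∃ c > (0 : ℝ), Asymptotics.IsEquivalent atTop (fun n : ℕ => rt ν (2 * n))
        (fun n : ℕ => c * (n : ℝ) ^ (-(3 / 2) : ℝ) * (Real.log n) ^ (-((j : ℝ) / 2 ^ (k + 1))) * ρ ^ (2 * n))) ∧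
    ∃ (G : Type) (_ : Group G), RDp G ∧ ∃ ν : G →₀ ℝ, SP ν ∧ ∃ ρ > (0 : ℝ), IsNrm ν ρ ∧
      (∃ c > (0 : ℝ), Asymptotics.IsEquivalent atTop (fun n : ℕ => rt ν (2 * n))
        (fun n : ℕ => c * (n : ℝ) ^ (-(3 / 2) : ℝ) * (Real.log (Real.log n)) ^ (-(1 / 2) : ℝ) * ρ ^ (2 * n))) ∧
      ∀ d b c : ℝ, 0 < c → ¬ Asymptotics.IsEquivalent atTop (fun n : ℕ => rt ν (2 * n))
        (fun n : ℕ => c * (n : ℝ) ^ (-d) * (Real.log n) ^ (-b) * ρ ^ (2 * n)) := by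
  have key : ∀ m : ℕ → ℝ, Corr m → ∃ (G : Type) (_ : Group G), RDp G ∧ ∃ ν : G →₀ ℝ, SP ν ∧ ∃ ρ > (0 : ℝ), IsNrm ν ρ ∧
      ∃ c > (0 : ℝ), Asymptotics.IsEquivalent atTop (fun n : ℕ => rt ν (2 * n))
        (fun n : ℕ => c * (n : ℝ) ^ (-(3 / 2) : ℝ) * (m n) ^ (-(1 / 2) : ℝ) * ρ ^ (2 * n)) := by
    intro m hm
    obtain ⟨G, iG, hc, ν, h1, h2, z, κ, hA⟩ := hm.walkx
    obtain ⟨hm1, hmm, K, hK, hKm⟩ := hm.props
    have hφ : ∀ n : ℕ, 1 ≤ n → 0 < (n : ℝ) ^ (3 / 2 : ℝ) * (m n) ^ (1 / 2 : ℝ) := by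
      intro n hn
      have hn0 : (0 : ℝ) < n := by exact_mod_cast hn
      exact mul_pos (Real.rpow_pos_of_pos hn0 _) (Real.rpow_pos_of_pos (by linarith [hm1 n]) _)
    refine ⟨G, iG, cent_rd hc, ν, h1, 1 / z, by have := hA.1; positivity, norm_of_asyk h1 (asf_asy h1 hφ hA) ?_, κ,
      hA.2.1, ?_⟩
    · -- crude bounds
      refine ⟨3, 1 / (K + 1), by positivity, 1, fun n hn => ?_⟩
      have hn0 : (0 : ℝ) < n := by exact_mod_cast hn
      have hn1 : (1 : ℝ) ≤ n := by exact_mod_cast hn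
      have hmn := hm1 n
      have hmpos : 0 < m n := by linarith
      have hH : mm (fun _ => 1) n ≤ n := by
        refine (mm_one_le n).trans ?_
        have := Real.log_le_sub_one_of_pos hn0
        linarith
      have hH1 : 0 ≤ mm (fun _ => (1 : ℝ)) n := Finset.sum_nonneg fun k _ => by positivity
      have hmK : m n ≤ (K + 1) * n := by
        refine (hKm n hn).trans ?_
        exact mul_le_mul (by linarith) hH hH1 (by linarith)
      constructor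
      · rw [div_div]
        refine one_div_le_one_div_of_le (hφ n hn) ?_
        have e1 : (n : ℝ) ^ (3 / 2 : ℝ) ≤ (n : ℝ) ^ 2 := by
          rw [← Real.rpow_natCast]
          exact Real.rpow_le_rpow_of_exponent_le hn1 (by norm_num)
        have e2 : (m n) ^ (1 / 2 : ℝ) ≤ m n := by
          conv_rhs => rw [← Real.rpow_one (m n)]
          exact Real.rpow_le_rpow_of_exponent_le hmn (by norm_num)
        calc (n : ℝ) ^ (3 / 2 : ℝ) * (m n) ^ (1 / 2 : ℝ) ≤ (n : ℝ) ^ 2 * ((K + 1) * n) :=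
              mul_le_mul e1 (e2.trans hmK) (Real.rpow_nonneg hmpos.le _) (by positivity)
          _ = (K + 1) * (n : ℝ) ^ 3 := by ring
      · rw [div_le_one (hφ n hn)]
        have e1 : 1 ≤ (n : ℝ) ^ (3 / 2 : ℝ) := Real.one_le_rpow hn1 (by norm_num)
        have e2 : 1 ≤ (m n) ^ (1 / 2 : ℝ) := Real.one_le_rpow hmn (by norm_num)
        nlinarith
    · obtain ⟨hz, hκ, hl⟩ := hA
      refine Asymptotics.isEquivalent_of_tendsto_one ?_
      have h3 := hl.div_const κ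
      rw [div_self hκ.ne'] at h3
      refine h3.congr' ?_
      filter_upwards [eventually_ge_atTop 1] with n hn
      have hn0 : (0 : ℝ) < n := by exact_mod_cast hn
      have hmpos : 0 < m n := by linarith [hm1 n]
      have p1 : (n : ℝ) ^ (3 / 2 : ℝ) ≠ 0 := (Real.rpow_pos_of_pos hn0 _).ne'
      have p2 : (m n) ^ (1 / 2 : ℝ) ≠ 0 := (Real.rpow_pos_of_pos hmpos _).ne'
      have hz2 : 0 < z ^ (2 * n) := by positivity
      show _ = rt ν (2 * n) / (κ * (n : ℝ) ^ (-(3 / 2) : ℝ) * (m n) ^ (-(1 / 2) : ℝ) * (1 / z) ^ (2 * n))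
      rw [Real.rpow_neg hn0.le, Real.rpow_neg hmpos.le, div_pow, one_pow]
      field_simp
  refine ⟨key, ?_, ?_⟩
  · intro j k hjk
    obtain ⟨m, hm, c₁, hc₁, hml⟩ := corr_logpow k j hjk
    obtain ⟨G, iG, hRD, ν, h1, ρ, hρ, h2, c₀, hc₀, hE⟩ := key m hm
    refine ⟨G, iG, hRD, ν, h1, ρ, hρ, h2, c₀ * c₁ ^ (-(1 / 2) : ℝ), mul_pos hc₀ (Real.rpow_pos_of_pos hc₁ _),
      hE.trans ?_⟩
    have hlog : Tendsto (fun n : ℕ => Real.log n) atTop atTop :=
      Real.tendsto_log_atTop.comp tendsto_natCast_atTop_atTop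
    obtain ⟨β, hβ⟩ : ∃ β : ℝ, β = (j : ℝ) / 2 ^ k := ⟨_, rfl⟩
    rw [← hβ] at hml
    have hβ2 : (j : ℝ) / 2 ^ (k + 1) = β * (1 / 2) := by
      rw [hβ, pow_succ]
      field_simp
    have h3 : Tendsto (fun n : ℕ => m n / (c₁ * (Real.log n) ^ β)) atTop (𝓝 1) := by
      refine (Asymptotics.isEquivalent_iff_tendsto_one ?_).1 hml
      filter_upwards [hlog.eventually_gt_atTop 0] with n hn
      exact (mul_pos hc₁ (Real.rpow_pos_of_pos hn _)).ne'
    have h4 := h3.rpow_const (p := (-(1 / 2) : ℝ)) (Or.inl one_ne_zero)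
    rw [Real.one_rpow] at h4
    refine Asymptotics.isEquivalent_of_tendsto_one ?_
    refine h4.congr' ?_
    filter_upwards [hlog.eventually_gt_atTop 0, eventually_ge_atTop 1] with n hn hn'
    have hn0 : (0 : ℝ) < n := by exact_mod_cast hn'
    have hmpos : 0 < m n := by linarith [hm.props.1 n]
    have p1 : (n : ℝ) ^ (-(3 / 2) : ℝ) ≠ 0 := (Real.rpow_pos_of_pos hn0 _).ne'
    have p3 : ρ ^ (2 * n) ≠ 0 := pow_ne_zero _ hρ.ne'
    have p4 : c₁ ^ (-(1 / 2) : ℝ) ≠ 0 := (Real.rpow_pos_of_pos hc₁ _).ne'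
    have p5 : (Real.log n) ^ (-(β * (1 / 2))) ≠ 0 := (Real.rpow_pos_of_pos hn _).ne'
    show _ = (c₀ * (n : ℝ) ^ (-(3 / 2) : ℝ) * (m n) ^ (-(1 / 2) : ℝ) * ρ ^ (2 * n)) /
      (c₀ * c₁ ^ (-(1 / 2) : ℝ) * (n : ℝ) ^ (-(3 / 2) : ℝ) * (Real.log n) ^ (-((j : ℝ) / 2 ^ (k + 1))) * ρ ^ (2 * n))
    rw [hβ2, Real.div_rpow hmpos.le (mul_pos hc₁ (Real.rpow_pos_of_pos hn _)).le,
      Real.mul_rpow hc₁.le (Real.rpow_nonneg hn.le _), ← Real.rpow_mul hn.le,
      show β * (-(1 / 2) : ℝ) = -(β * (1 / 2)) by ring]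
    field_simp
  obtain ⟨m, hm, hml⟩ := corr_loglog_equiv
  obtain ⟨G, iG, hRD, ν, h1, ρ, hρ, h2, c₀, hc₀, hE⟩ := key m hm
  have hll : Tendsto (fun n : ℕ => Real.log (Real.log n)) atTop atTop :=
    Real.tendsto_log_atTop.comp (Real.tendsto_log_atTop.comp tendsto_natCast_atTop_atTop)
  -- the asymptotics with `log log n`
  have hE2 : Asymptotics.IsEquivalent atTop (fun n : ℕ => rt ν (2 * n))
      (fun n : ℕ => c₀ * (n : ℝ) ^ (-(3 / 2) : ℝ) * (Real.log (Real.log n)) ^ (-(1 / 2) : ℝ) * ρ ^ (2 * n)) := by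
    refine hE.trans ?_
    have h3 : Tendsto (fun n : ℕ => m n / Real.log (Real.log n)) atTop (𝓝 1) := by
      refine (Asymptotics.isEquivalent_iff_tendsto_one ?_).1 hml
      filter_upwards [hll.eventually_gt_atTop 0] with n hn
      exact hn.ne'
    have h4 := h3.rpow_const (p := (-(1 / 2) : ℝ)) (Or.inl one_ne_zero)
    rw [Real.one_rpow] at h4
    refine Asymptotics.isEquivalent_of_tendsto_one ?_
    refine h4.congr' ?_
    filter_upwards [hll.eventually_gt_atTop 0, eventually_ge_atTop 1] with n hn hn'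
    have hn0 : (0 : ℝ) < n := by exact_mod_cast hn'
    have hmpos : 0 < m n := by linarith [hm.props.1 n]
    have p1 : (n : ℝ) ^ (-(3 / 2) : ℝ) ≠ 0 := (Real.rpow_pos_of_pos hn0 _).ne'
    have p2 : (Real.log (Real.log n)) ^ (-(1 / 2) : ℝ) ≠ 0 := (Real.rpow_pos_of_pos hn _).ne'
    have p3 : ρ ^ (2 * n) ≠ 0 := pow_ne_zero _ hρ.ne'
    show _ = (c₀ * (n : ℝ) ^ (-(3 / 2) : ℝ) * (m n) ^ (-(1 / 2) : ℝ) * ρ ^ (2 * n)) /
      (c₀ * (n : ℝ) ^ (-(3 / 2) : ℝ) * (Real.log (Real.log n)) ^ (-(1 / 2) : ℝ) * ρ ^ (2 * n))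
    rw [Real.div_rpow hmpos.le hn.le]
    field_simp
  refine ⟨G, iG, hRD, ν, h1, ρ, hρ, h2, ⟨c₀, hc₀, hE2⟩, ?_⟩
  intro d b c' hc'
  refine not_equivalent (c₁ := c₀ / 2) (C₁ := 2 * c₀) hρ (by linarith) ?_ d b c' hc'
  have h5 : ∀ᶠ n : ℕ in atTop, c₀ * (n : ℝ) ^ (-(3 / 2) : ℝ) * (Real.log (Real.log n)) ^ (-(1 / 2) : ℝ) * ρ ^ (2 * n)
      ≠ 0 := by
    filter_upwards [hll.eventually_gt_atTop 0, eventually_ge_atTop 1] with n hn hn'
    have hn0 : (0 : ℝ) < n := by exact_mod_cast hn'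
    have p1 := Real.rpow_pos_of_pos hn0 (-(3 / 2) : ℝ)
    have p2 := Real.rpow_pos_of_pos hn (-(1 / 2) : ℝ)
    positivity
  have h6 := (Asymptotics.isEquivalent_iff_tendsto_one h5).1 hE2
  have h7 := (h6.eventually_const_lt (show (1 / 2 : ℝ) < 1 by norm_num)).and
    (h6.eventually_lt_const (show (1 : ℝ) < 2 by norm_num))
  filter_upwards [h7, hll.eventually_gt_atTop 0, eventually_ge_atTop 1] with n hn hn1 hn2
  have hn0 : (0 : ℝ) < n := by exact_mod_cast hn2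
  have p1 := Real.rpow_pos_of_pos hn0 (-(3 / 2) : ℝ)
  have p2 := Real.rpow_pos_of_pos hn1 (-(1 / 2) : ℝ)
  have p3 : 0 < ρ ^ (2 * n) := by positivity
  obtain ⟨q1, q2⟩ := hn
  have q1' : 1 / 2 < rt ν (2 * n) /
      (c₀ * (n : ℝ) ^ (-(3 / 2) : ℝ) * (Real.log (Real.log n)) ^ (-(1 / 2) : ℝ) * ρ ^ (2 * n)) := q1
  have q2' : rt ν (2 * n) /
      (c₀ * (n : ℝ) ^ (-(3 / 2) : ℝ) * (Real.log (Real.log n)) ^ (-(1 / 2) : ℝ) * ρ ^ (2 * n)) < 2 := q2
  rw [lt_div_iff₀ (by positivity)] at q1'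
  rw [div_lt_iff₀ (by positivity)] at q2'
  constructor
  · refine le_trans (le_of_eq ?_) q1'.le
    ring
  · refine q2'.le.trans (le_of_eq ?_)
    ring

end Pool.Agent.Results.MP_5501f7_pr.Corrections
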