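import Pool.Agent.RDL.ExpoX

/-!
# Return probabilities on groups with property RD: the exponents
-/

set_option autoImplicit false

namespace Pool.Agent.Results.MP_5501f7_pr.Exponents

open Pool.Agent.RDL Filter Topology

/-- For every real number `d` of the least class `Expo` which contains `1 / 2`, is closed under addition and contains
with `a ∈ (2, 3)` also `a / (a - 1)`, there are a finitely generated group with property RD and a finitely supported
symmetric probability measure whose even return probabilities are asymptotic to `c n ^ (-d) ρ ^ (2n)`, where `ρ` is the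
norm of the convolution. The class is dense in `[3 / 2, ∞)`. -/
theorem result :
    (∀ d : ℝ, Expo d → ∃ (G : Type) (_ : Group G), RDp G ∧ ∃ ν : G →₀ ℝ, SP ν ∧ ∃ ρ > (0 : ℝ), IsNrm ν ρ ∧
      ∃ c > (0 : ℝ), Asymptotics.IsEquivalent atTop (fun n : ℕ => rt ν (2 * n))
        (fun n : ℕ => c * (n : ℝ) ^ (-d) * ρ ^ (2 * n))) ∧
    ∀ x : ℝ, 3 / 2 ≤ x → ∀ ε > (0 : ℝ), ∃ d : ℝ, Expo d ∧ |d - x| < ε := by
  refine ⟨?_, fun x hx ε hε => expo_dense hx hε⟩
  intro d hd
  obtain ⟨G, iG, hc, ν, h1, h2, z, κ, hA⟩ := hd.walkx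
  have hd0 := expo_pos hd
  refine ⟨G, iG, cent_rd hc, ν, h1, 1 / z, by have := hA.1; positivity, norm_of_asyk h1 (asx_asy h1 hA) ?_, κ,
    hA.2.1, ?_⟩
  · obtain ⟨k, hk⟩ := exists_nat_ge d
    refine ⟨k, 1, one_pos, 1, fun n hn => ?_⟩
    have hn1 : (1 : ℝ) ≤ n := by exact_mod_cast hn
    have hn0 : (0 : ℝ) < n := by linarith
    beta_reduce
    constructor
    · rw [one_div, ← Real.rpow_natCast, ← Real.rpow_neg hn0.le]
      exact Real.rpow_le_rpow_of_exponent_le hn1 (by linarith)
    · exact Real.rpow_le_one_of_one_le_of_nonpos hn1 (by linarith)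
  · obtain ⟨hz, hκ, hl⟩ := hA
    refine Asymptotics.isEquivalent_of_tendsto_one ?_
    have h3 := hl.div_const κ
    rw [div_self hκ.ne'] at h3
    refine h3.congr' ?_
    filter_upwards [eventually_ge_atTop 1] with n hn
    have hn0 : (0 : ℝ) < n := by exact_mod_cast hn
    have hp : 0 < (n : ℝ) ^ d := Real.rpow_pos_of_pos hn0 _
    have hz2 : 0 < z ^ (2 * n) := by positivity
    show _ = rt ν (2 * n) / (κ * (n : ℝ) ^ (-d) * (1 / z) ^ (2 * n))
    rw [Real.rpow_neg hn0.le, div_pow, one_pow]
    field_simp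

end Pool.Agent.Results.MP_5501f7_pr.Exponents
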